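import Pool.Agent.R370.ST.Cl

/-!
# The Sato-Tate law lifts from the even part

`K` is a number field, `G = ST_K` the Sato-Tate group of a family as in the problem (an arbitrary compact
group) and `x_v ∈ G` an element of the class of the prime `v` (any element at the finitely many
exceptional primes).  Let `Z` be a central subgroup of `G`.  The law modulo `Z` says that the averages of
`f(x_v)` tend to the integral of `f` for the class functions `f` with `f(zg) = f(g)`, `z ∈ Z`; this is the
Sato-Tate law for `G / Z`.  For the families of odd weight of the problem, `-1 ∈ G`, and the law modulo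
`{1, -1}` is the Sato-Tate law for the family `V ⊗ V` of even weight: the theorem deduces the law
for `V` from the law for `V ⊗ V`.  Other examples are Kuga-Satake abelian varieties and their
orthogonal families (`Spin` and `SO`), and the joint law of a family with any abelian families.

I. (Nothing is assumed about continuations.)  Suppose that the law holds modulo `Z`, and let `π` be a
representation of `G` for which `Z` acts by scalars, for instance a tensor product of irreducible
representations.  Put `c = ∫ |χ_π| dμ`.  Then `|log |L(π, 1 + it + ε)|| ≤ (c + η) log (1/ε)` for each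
`η > 0`, uniformly for all real `t` and all small `ε > 0`.  If `π` is irreducible and not of dimension
one, then `c < 1` (for instance `c = 8/(3π) < 0.849` for `SU(2)` and the representation of dimension two), and
each meromorphic continuation of `L(π, s)` to a neighbourhood of a point of `Re s = 1` has neither a
zero nor a pole at this point.

II. If the law holds modulo `Z`, if the averages of `ψ(x_v)` tend to zero for the one-dimensional
characters `ψ` which are nontrivial on `Z` (there are none if `G` is connected and semisimple), and if the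
`L(π, s)` have meromorphic continuations to neighbourhoods of the points of `Re s = 1` for the irreducible
`π` of dimension greater than one which are nontrivial on `Z`, then the Sato-Tate law holds for `G`.
-/

set_option autoImplicit false

namespace Pool.Agent.Results.MP_4c4ce6_nt.CentralLifts

open NumberField IsDedekindDomain Filter Topology MeasureTheory

section

variable {K : Type} [Field K] [NumberField K]

/-- The average of `φ` over the primes of `K` of norm at most `N`. -/
noncomputable def avg (φ : HeightOneSpectrum (𝓞 K) → ℂ) (N : ℕ) : ℂ :=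
  (∑ᶠ v : {v : HeightOneSpectrum (𝓞 K) // Ideal.absNorm v.asIdeal ≤ N}, φ v.1) /
    (Nat.card {v : HeightOneSpectrum (𝓞 K) // Ideal.absNorm v.asIdeal ≤ N} : ℂ)

/-- The Sato-Tate law modulo `Z`: the averages of `f(x_v)` tend to the integral of `f` for all continuous
class functions `f` on `G` which are invariant under the multiplication by elements of `Z`. -/
def LawModulo {G : Type} [Group G] [TopologicalSpace G] [MeasurableSpace G] (Z : Subgroup G)
    (x : HeightOneSpectrum (𝓞 K) → G) (μ : Measure G) : Prop :=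
  ∀ f : G → ℂ, Continuous f → (∀ g h, f (h * g * h⁻¹) = f g) → (∀ z ∈ Z, ∀ g, f (z * g) = f g) →
    Tendsto (avg fun v => f (x v)) atTop (𝓝 (∫ g, f g ∂μ))

/-- The Sato-Tate law: the classes of the `x_v` are equidistributed for `μ`. -/
def Law {G : Type} [Group G] [TopologicalSpace G] [MeasurableSpace G]
    (x : HeightOneSpectrum (𝓞 K) → G) (μ : Measure G) : Prop :=
  ∀ f : G → ℂ, Continuous f → (∀ g h, f (h * g * h⁻¹) = f g) →
    Tendsto (avg fun v => f (x v)) atTop (𝓝 (∫ g, f g ∂μ))

variable {G : Type} [Group G] {n : ℕ}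

/-- The character of `π`. -/
noncomputable def chr (π : G →* Matrix.unitaryGroup (Fin n) ℂ) (g : G) : ℂ :=
  (π g : Matrix (Fin n) (Fin n) ℂ).trace

/-- `Z` acts by scalars. -/
def ActsByScalars (Z : Subgroup G) (π : G →* Matrix.unitaryGroup (Fin n) ℂ) : Prop :=
  ∀ z ∈ Z, ∃ c : ℂ, (π z : Matrix (Fin n) (Fin n) ℂ) = c • (1 : Matrix (Fin n) (Fin n) ℂ)

/-- The continuous unitary representation `π` is irreducible: its dimension is positive and only the
scalars commute with all matrices `π g`. -/
structure IsIrreducible [TopologicalSpace G] (π : G →* Matrix.unitaryGroup (Fin n) ℂ) : Prop where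
  pos : 0 < n
  continuous : Continuous π
  schur : ∀ A : Matrix (Fin n) (Fin n) ℂ, (∀ g, (π g : Matrix (Fin n) (Fin n) ℂ) * A = A * π g) →
    ∃ c : ℂ, A = c • (1 : Matrix (Fin n) (Fin n) ℂ)

/-- The Euler product `L(π, s) = ∏_v det(1 - q_v^{-s} π(x_v))⁻¹` over the primes `v` of `K`. -/
noncomputable def LFun (π : G →* Matrix.unitaryGroup (Fin n) ℂ) (x : HeightOneSpectrum (𝓞 K) → G)
    (s : ℂ) : ℂ :=
  ∏' v : HeightOneSpectrum (𝓞 K), (Matrix.det (1 - ((Ideal.absNorm v.asIdeal : ℂ) ^ (-s)) •
    (π (x v) : Matrix (Fin n) (Fin n) ℂ)))⁻¹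

/-- `Λ` is a meromorphic continuation of `L(π, s)` to a neighbourhood of `1 + it`. -/
def IsContinuation (π : G →* Matrix.unitaryGroup (Fin n) ℂ) (x : HeightOneSpectrum (𝓞 K) → G)
    (t : ℝ) (Λ : ℂ → ℂ) : Prop :=
  MeromorphicAt Λ (1 + t * Complex.I) ∧
    ∀ᶠ s in 𝓝 ((1 : ℂ) + t * Complex.I), (1 : ℝ) < s.re → Λ s = LFun π x s

end

section Bridge

set_option linter.unusedSectionVars false

open Pool.Agent.TH553.ST Pool.Agent.TH553.RS Pool.Agent.W540.BE Pool.Agent.R370.ST

variable {K : Type} [Field K] [NumberField K]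

theorem avg_eq (g : HeightOneSpectrum (𝓞 K) → ℂ) : avg g = mn g := by
  funext N
  have hs : ∀ v, v ∈ upto K N ↔ Ideal.absNorm v.asIdeal ≤ N := fun v => mem_upto
  let e : {v : HeightOneSpectrum (𝓞 K) // Ideal.absNorm v.asIdeal ≤ N} ≃ (upto K N) :=
    Equiv.subtypeEquivRight fun v => (hs v).symm
  have hfin : Finite {v : HeightOneSpectrum (𝓞 K) // Ideal.absNorm v.asIdeal ≤ N} :=
    Finite.of_equiv _ e.symm
  unfold avg mn
  have h1 : (∑ᶠ v : {v : HeightOneSpectrum (𝓞 K) // Ideal.absNorm v.asIdeal ≤ N}, g v.1) =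
      ∑ v ∈ upto K N, g v := by
    rw [← Finset.sum_coe_sort, ← finsum_eq_sum_of_fintype, ← finsum_comp_equiv e]
    rfl
  have h2 : Nat.card {v : HeightOneSpectrum (𝓞 K) // Ideal.absNorm v.asIdeal ≤ N} =
      (upto K N).card := by
    rw [Nat.card_congr e, Nat.card_eq_fintype_card, Fintype.card_coe]
  rw [h1, h2, Complex.real_smul, div_eq_inv_mul]
  push_cast
  rfl

variable {G : Type} [Group G] [TopologicalSpace G] [IsTopologicalGroup G] [CompactSpace G]
  [MeasurableSpace G] [BorelSpace G] {μ : Measure G} [IsProbabilityMeasure μ] [μ.IsHaarMeasure]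
  {x : HeightOneSpectrum (𝓞 K) → G}

theorem lawZ_of {Z : Subgroup G} (h : LawModulo Z x μ) : LawZ Z x μ := by
  intro f hf hcl hz
  have h1 := h f hf hcl hz
  rw [avg_eq] at h1
  exact h1

end Bridge

/-- **Central lifts.**  Let `K` be a number field, `G` a compact group with Haar probability measure `μ`,
`Z` a central subgroup of `G` and `x_v ∈ G` for the primes `v` of `K`, such that the Sato-Tate law holds
modulo `Z`.

I.  Let `π` be a continuous unitary representation of `G` for which `Z` acts by scalars.  For each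
`η > 0` there is an `ε₀ > 0` with `|log |L(π, 1 + it + ε)|| ≤ (∫ |χ_π| dμ + η) log (1/ε)` for all real
`t` and all `0 < ε < ε₀`.  If `π` is irreducible of dimension `n > 1` then `∫ |χ_π| dμ < 1`, and each
meromorphic continuation of `L(π, s)` to a neighbourhood of `1 + it`, `t` real, has the order zero at
this point.

II.  Suppose that the averages of `ψ(x_v)` tend to zero for all one-dimensional characters `ψ` of `G`
which are nontrivial on `Z`, and that for all irreducible `π` of dimension `n > 1` which are
nontrivial on `Z` and for all real `t` there is a meromorphic continuation of `L(π, s)` to a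
neighbourhood of `1 + it`.  Then the Sato-Tate law holds. -/
theorem result (K : Type) [Field K] [NumberField K]
    (G : Type) [Group G] [TopologicalSpace G] [IsTopologicalGroup G] [CompactSpace G] [T2Space G]
    [MeasurableSpace G] [BorelSpace G] (μ : Measure G)
    [IsProbabilityMeasure μ] [μ.IsHaarMeasure] (Z : Subgroup G) (hZ : Z ≤ Subgroup.center G)
    (x : HeightOneSpectrum (𝓞 K) → G) (hx : LawModulo Z x μ) :
    ((∀ (n : ℕ) (π : G →* Matrix.unitaryGroup (Fin n) ℂ), Continuous π → ActsByScalars Z π →
      ∀ η : ℝ, 0 < η → ∃ ε₀ : ℝ, 0 < ε₀ ∧ ∀ t ε : ℝ, 0 < ε → ε < ε₀ →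
        LFun π x (1 + t * Complex.I + ε) ≠ 0 ∧
        |Real.log ‖LFun π x (1 + t * Complex.I + ε)‖| ≤
          (∫ g, ‖chr π g‖ ∂μ + η) * Real.log (1 / ε)) ∧
      ∀ (n : ℕ) (π : G →* Matrix.unitaryGroup (Fin n) ℂ), IsIrreducible π → 1 < n →
        ActsByScalars Z π ∧ ∫ g, ‖chr π g‖ ∂μ < 1 ∧
        ∀ (t : ℝ) (Λ : ℂ → ℂ), IsContinuation π x t Λ →
          meromorphicOrderAt Λ (1 + t * Complex.I) = 0) ∧
    ((∀ ψ : G →* Matrix.unitaryGroup (Fin 1) ℂ, Continuous ψ → (∃ z ∈ Z, ψ z ≠ 1) →
        Tendsto (avg fun v => chr ψ (x v)) atTop (𝓝 0)) →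
      (∀ (n : ℕ) (π : G →* Matrix.unitaryGroup (Fin n) ℂ), IsIrreducible π → 1 < n →
        (∃ z ∈ Z, π z ≠ 1) → ∀ t : ℝ, ∃ Λ, IsContinuation π x t Λ) →
      Law x μ) := by
  have H := lawZ_of hx
  refine ⟨⟨fun n π hc hz η hη => Pool.Agent.R370.ST.unif_size
    (Pool.Agent.R370.ST.mn_abs H hc hz) hη, fun n π hπ hn => ⟨?_, ?_, fun t Λ hΛ => ?_⟩⟩,
    fun hab hcont f hf hcl => ?_⟩
  · exact Pool.Agent.R370.ST.scalar_of_central hZ hπ.schur
  · exact Pool.Agent.R370.ST.int_abs_lt_one hπ.continuous hπ.schur hn
  · exact Pool.Agent.R370.ST.order_zero_Z hZ H hπ.continuous hπ.schur hn hΛ.1 hΛ.2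
  · rw [avg_eq]
    refine Pool.Agent.R370.ST.lift_law hZ H (fun ψ h1 h2 => ?_) (fun n π h1 h2 h3 h4 t => ?_) hf hcl
    · have h3 := hab ψ h1 h2
      rw [avg_eq] at h3
      exact h3
    · exact hcont n π ⟨by omega, h1, h2⟩ h3 h4 t

end Pool.Agent.Results.MP_4c4ce6_nt.CentralLifts
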