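import Pool.Agent.R370.ST.FinI

/-!
# The Sato-Tate law is inherited by the extensions of the base field

`K` is a number field, `G = ST_K` the Sato-Tate group over `K` of a family as in the problem (an arbitrary
compact group, in general not connected) and `x_v ∈ G` an element of the class of the prime `v` of `K`
(any element at the finitely many exceptional primes; this changes the `L`-functions below by finitely
many factors without zeros and poles in `Re s > 0`).  Suppose that the classes of the `x_v` are
equidistributed, so that the Sato-Tate law holds over `K`.  The theorem is about the twists of the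
family by the irreducible Artin representations `τ` of `K`, and about the finite extensions `F` of `K`.

I. Let `π` be an irreducible representation of `G` which is not trivial on the identity component, and `τ`
any irreducible Artin representation of `K`.  Without any assumption on continuations,
`|log |L(π ⊗ τ, 1 + it + ε)|| ≤ (1 - δ) log (1 / ε)` for some `δ > 0` and all small `ε > 0`, and every
meromorphic continuation to a neighbourhood of `1 + it` has neither a zero nor a pole at `1 + it`.
Nothing is assumed about the automorphy of `π` or `τ`, and nothing is assumed about the Galois group.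

II. Let `F / K` be a finite extension of any degree and with any Galois group such that `ST_F = ST_K`
(for connected `G` these are all finite extensions of `K`; in general, they are the extensions `F` for which
`F ⊗_K L` is a field, where `L / K` is the finite Galois extension whose group is the group of components
of `G`).  If the functions `L(π ⊗ τ, s)` of part I, for all `τ` which factor over the Galois group of
the normal closure of `F / K`, have meromorphic continuations to neighbourhoods of the points of the line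
`Re s = 1`, then the Sato-Tate law holds over `F`.

The criterion of Serre for the Sato-Tate law over `F` needs continuations of all `L(π / F, s)` without
zeros and poles on `Re s = 1`; here the absence of zeros and poles is a conclusion and not an assumption.
-/

set_option autoImplicit false

namespace Pool.Agent.Results.MP_4c4ce6_nt.InheritanceByExtensions

open NumberField IsDedekindDomain Filter Topology MeasureTheory
open scoped Kronecker

section

variable {F : Type} [Field F] [NumberField F]

/-- The average of `φ` over the primes of `F` of norm at most `N`. -/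
noncomputable def avg (φ : HeightOneSpectrum (𝓞 F) → ℂ) (N : ℕ) : ℂ :=
  (∑ᶠ w : {w : HeightOneSpectrum (𝓞 F) // Ideal.absNorm w.asIdeal ≤ N}, φ w.1) /
    (Nat.card {w : HeightOneSpectrum (𝓞 F) // Ideal.absNorm w.asIdeal ≤ N} : ℂ)

/-- The classes of the `y w` are equidistributed for `μ`. -/
def Equidistributed {G : Type} [Group G] [TopologicalSpace G] [MeasurableSpace G]
    (y : HeightOneSpectrum (𝓞 F) → G) (μ : Measure G) : Prop :=
  ∀ f : G → ℂ, Continuous f → (∀ g h, f (h * g * h⁻¹) = f g) →
    Tendsto (avg fun w => f (y w)) atTop (𝓝 (∫ g, f g ∂μ))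

/-- `y w` is a conjugate of `x v` for all but finitely many primes `w` of `F` of residue degree one over
the prime `v` of `K` below `w`. -/
def BaseChange {K : Type} [Field K] [NumberField K] [Algebra K F] {G : Type} [Group G]
    (x : HeightOneSpectrum (𝓞 K) → G) (y : HeightOneSpectrum (𝓞 F) → G) : Prop :=
  ∃ S : Finset (HeightOneSpectrum (𝓞 F)), ∀ w, w ∉ S → ∀ v : HeightOneSpectrum (𝓞 K),
    w.asIdeal.comap (algebraMap (𝓞 K) (𝓞 F)) = v.asIdeal →
    Ideal.absNorm w.asIdeal = Ideal.absNorm v.asIdeal → ∃ h : G, y w = h * x v * h⁻¹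

end

section

variable {G : Type} [Group G] {n m : ℕ}

/-- Only the scalars commute with all matrices `π g`. -/
def IsSchur (π : G →* Matrix.unitaryGroup (Fin n) ℂ) : Prop :=
  ∀ A : Matrix (Fin n) (Fin n) ℂ, (∀ g, (π g : Matrix (Fin n) (Fin n) ℂ) * A = A * π g) →
    ∃ c : ℂ, A = c • (1 : Matrix (Fin n) (Fin n) ℂ)

/-- The unitary representation `π` is continuous, irreducible and not trivial on the identity component
of `G`. -/
structure IsMoving [TopologicalSpace G] (π : G →* Matrix.unitaryGroup (Fin n) ℂ) : Prop where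
  continuous : Continuous π
  schur : IsSchur π
  moves : ∃ g ∈ connectedComponent (1 : G), π g ≠ 1

variable {K : Type} [Field K] [NumberField K]

/-- `σ` is a Frobenius element at the prime `v` of `K`: there is a maximal ideal `Q` above `v` of the
ring of all algebraic integers with `σ x ≡ x ^ N(v)` modulo `Q` for all `x`. -/
def IsFrobenius (v : HeightOneSpectrum (𝓞 K)) (σ : Gal(AlgebraicClosure K/K)) : Prop :=
  ∃ Q : Ideal (𝓞 (AlgebraicClosure K)), Q.IsMaximal ∧
    Q.comap (algebraMap (𝓞 K) (𝓞 (AlgebraicClosure K))) = v.asIdeal ∧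
    ∀ x : 𝓞 (AlgebraicClosure K), σ • x - x ^ Ideal.absNorm v.asIdeal ∈ Q

/-- `τ` is an irreducible Artin representation of `K`. -/
structure IsArtin (τ : Gal(AlgebraicClosure K/K) →* Matrix.unitaryGroup (Fin m) ℂ) : Prop where
  isOpen_ker : IsOpen (τ.ker : Set Gal(AlgebraicClosure K/K))
  schur : IsSchur τ

/-- The Euler product `L(π ⊗ τ, s) = ∏_v det(1 - q_v^{-s} π(x_v) ⊗ τ(σ_v))⁻¹` over the primes `v` of
`K`; in the theorem `σ_v` is a Frobenius element at `v`. -/
noncomputable def LFun (π : G →* Matrix.unitaryGroup (Fin n) ℂ) (x : HeightOneSpectrum (𝓞 K) → G)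
    (τ : Gal(AlgebraicClosure K/K) →* Matrix.unitaryGroup (Fin m) ℂ)
    (σ : HeightOneSpectrum (𝓞 K) → Gal(AlgebraicClosure K/K)) (s : ℂ) : ℂ :=
  ∏' v : HeightOneSpectrum (𝓞 K), (Matrix.det (1 - ((Ideal.absNorm v.asIdeal : ℂ) ^ (-s)) •
    ((π (x v) : Matrix (Fin n) (Fin n) ℂ) ⊗ₖ (τ (σ v) : Matrix (Fin m) (Fin m) ℂ))))⁻¹

/-- `log |L(π ⊗ τ, 1 + it + ε)| / log (1/ε)`. -/
noncomputable def size (π : G →* Matrix.unitaryGroup (Fin n) ℂ) (x : HeightOneSpectrum (𝓞 K) → G)
    (τ : Gal(AlgebraicClosure K/K) →* Matrix.unitaryGroup (Fin m) ℂ)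
    (σ : HeightOneSpectrum (𝓞 K) → Gal(AlgebraicClosure K/K)) (t ε : ℝ) : ℝ :=
  Real.log ‖LFun π x τ σ (1 + t * Complex.I + ε)‖ / Real.log (1 / ε)

/-- `Λ` is a meromorphic continuation of `L(π ⊗ τ, s)` to a neighbourhood of `1 + it`. -/
def IsContinuation (π : G →* Matrix.unitaryGroup (Fin n) ℂ) (x : HeightOneSpectrum (𝓞 K) → G)
    (τ : Gal(AlgebraicClosure K/K) →* Matrix.unitaryGroup (Fin m) ℂ)
    (σ : HeightOneSpectrum (𝓞 K) → Gal(AlgebraicClosure K/K)) (t : ℝ) (Λ : ℂ → ℂ) : Prop :=
  MeromorphicAt Λ (1 + t * Complex.I) ∧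
    ∀ᶠ s in 𝓝 ((1 : ℂ) + t * Complex.I), (1 : ℝ) < s.re → Λ s = LFun π x τ σ s

/-- `q` identifies the group of components of `G` with the Galois group `Q` of a finite Galois
extension `L / K`, given by `r`, and the component of the class of `x v` is the class of the Frobenius
elements at `v` for almost all `v`. -/
structure IsComponentMap [TopologicalSpace G] (x : HeightOneSpectrum (𝓞 K) → G)
    (σ : HeightOneSpectrum (𝓞 K) → Gal(AlgebraicClosure K/K)) {Q : Type} [Group Q] (q : G →* Q)
    (r : Gal(AlgebraicClosure K/K) →* Q) : Prop where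
  surjective : Function.Surjective q
  ker_eq : ∀ g, q g = 1 ↔ g ∈ connectedComponent (1 : G)
  isOpen_ker : IsOpen (r.ker : Set Gal(AlgebraicClosure K/K))
  frobenius : ∃ S : Finset (HeightOneSpectrum (𝓞 K)), ∀ v, v ∉ S → ∃ h : Q,
    q (x v) = h * r (σ v) * h⁻¹

/-- `ST_F = ST_K`: the restriction of `r` to the absolute Galois group of `F` is surjective, for each
embedding of the extension `F` of `K` in the algebraic closure of `K`. -/
def SameGroup {Q : Type} [Group Q] (r : Gal(AlgebraicClosure K/K) →* Q) (F : Type) [Field F]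
    [Algebra K F] : Prop :=
  ∀ (e : F →ₐ[K] AlgebraicClosure K) (c : Q), ∃ g : Gal(AlgebraicClosure K/K),
    (∀ a : F, g (e a) = e a) ∧ r g = c

/-- `τ` factors over the Galois group of the normal closure of `F / K`. -/
def FactorsThrough (τ : Gal(AlgebraicClosure K/K) →* Matrix.unitaryGroup (Fin m) ℂ) (F : Type)
    [Field F] [Algebra K F] : Prop :=
  ∀ g : Gal(AlgebraicClosure K/K), (∀ (e : F →ₐ[K] AlgebraicClosure K) (a : F), g (e a) = e a) →
    τ g = 1

end

section Bridge

set_option linter.unusedSectionVars false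

open Pool.Agent.TH553.ST Pool.Agent.TH553.RS Pool.Agent.W540.BE Pool.Agent.R370.ST

variable {K : Type} [Field K] [NumberField K]

theorem avg_eq (g : HeightOneSpectrum (𝓞 K) → ℂ) : avg g = mn g := by
  funext N
  have hs : ∀ v, v ∈ upto K N ↔ Ideal.absNorm v.asIdeal ≤ N := fun v => mem_upto
  let e : {v : HeightOneSpectrum (𝓞 K) // Ideal.absNorm v.asIdeal ≤ N} ≃ (upto K N) :=
    Equiv.subtypeEquivRight fun v => (hs v).symm
  have hfin : Finite {v : HeightOneSpectrum (𝓞 K) // Ideal.absNorm v.asIdeal ≤ N} :=
    Finite.of_equiv _ e.symm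
  unfold avg mn
  have h1 : (∑ᶠ v : {v : HeightOneSpectrum (𝓞 K) // Ideal.absNorm v.asIdeal ≤ N}, g v.1) =
      ∑ v ∈ upto K N, g v := by
    rw [← Finset.sum_coe_sort, ← finsum_eq_sum_of_fintype, ← finsum_comp_equiv e]
    rfl
  have h2 : Nat.card {v : HeightOneSpectrum (𝓞 K) // Ideal.absNorm v.asIdeal ≤ N} =
      (upto K N).card := by
    rw [Nat.card_congr e, Nat.card_eq_fintype_card, Fintype.card_coe]
  rw [h1, h2, Complex.real_smul, div_eq_inv_mul]
  push_cast
  rfl

variable {G : Type} [Group G] [TopologicalSpace G] [IsTopologicalGroup G] [CompactSpace G]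
  [MeasurableSpace G] [BorelSpace G] {μ : Measure G} [IsProbabilityMeasure μ] [μ.IsHaarMeasure]
  {x : HeightOneSpectrum (𝓞 K) → G}

theorem law_of (h : Equidistributed x μ) : Law x μ := by
  intro f hf hcl
  have h1 := h (fun g => (f g : ℂ)) (Complex.continuous_ofReal.comp hf) fun g h => by rw [hcl]
  have h0 : ∫ g, (f g : ℂ) ∂μ = ((∫ g, f g ∂μ : ℝ) : ℂ) := integral_ofReal
  rw [avg_eq, h0] at h1
  have h2 := (Complex.continuous_re.tendsto _).comp h1
  refine h2.congr fun N => ?_
  simp only [Function.comp]
  rw [re_mn]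
  rfl

end Bridge

/-- **Inheritance of the Sato-Tate law.**  Let `K` be a number field, `G` a compact group with Haar
probability measure `μ` and `x_v ∈ G` for the primes `v` of `K`, such that the classes of the `x_v` are
equidistributed.  Let `σ_v` be a Frobenius element at `v`.

I.  Let `π` be an irreducible representation of `G`, not trivial on the identity component, let `τ` be
an irreducible Artin representation of `K` and `t` a real number.  Then
`|log |L(π ⊗ τ, 1 + it + ε)|| ≤ (1 - δ) log (1/ε)` for some `δ > 0` and all small `ε > 0`, and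
each meromorphic continuation of `L(π ⊗ τ, s)` to a neighbourhood of `1 + it` has the order zero at this
point.

II.  Suppose that the group of components of `G` is the Galois group of a finite extension `L / K` and
that the components of the `x_v` are the Frobenius classes.  Let `F / K` be a finite extension such that
`Gal(K̄ / F)` is mapped onto `Gal(L / K)`, and suppose that for all `π` and `t` as in part I and all
irreducible `τ` that factor over the Galois group of the normal closure of `F / K` there is a
meromorphic continuation of `L(π ⊗ τ, s)` to a neighbourhood of `1 + it`.  Then for each base change `y`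
of `x` the classes of the `y_w`, for the primes `w` of `F`, are equidistributed. -/
theorem result (K : Type) [Field K] [NumberField K]
    (G : Type) [Group G] [TopologicalSpace G] [IsTopologicalGroup G] [CompactSpace G] [T2Space G]
    [MeasurableSpace G] [BorelSpace G] (μ : Measure G)
    [IsProbabilityMeasure μ] [μ.IsHaarMeasure]
    (x : HeightOneSpectrum (𝓞 K) → G) (hx : Equidistributed x μ)
    (σ : HeightOneSpectrum (𝓞 K) → Gal(AlgebraicClosure K/K)) (hσ : ∀ v, IsFrobenius v (σ v)) :
    (∀ (n m : ℕ) (π : G →* Matrix.unitaryGroup (Fin n) ℂ)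
      (τ : Gal(AlgebraicClosure K/K) →* Matrix.unitaryGroup (Fin m) ℂ), IsMoving π → IsArtin τ →
      ∀ t : ℝ,
      (∀ᶠ ε : ℝ in 𝓝[>] 0, LFun π x τ σ (1 + t * Complex.I + ε) ≠ 0) ∧
      (∃ δ : ℝ, 0 < δ ∧ ∀ᶠ ε : ℝ in 𝓝[>] 0, |size π x τ σ t ε| ≤ 1 - δ) ∧
      ∀ Λ, IsContinuation π x τ σ t Λ → meromorphicOrderAt Λ (1 + t * Complex.I) = 0) ∧
    (∀ (Q : Type) [Group Q] (q : G →* Q) (r : Gal(AlgebraicClosure K/K) →* Q),
      IsComponentMap x σ q r → ∀ (F : Type) [Field F] [NumberField F] [Algebra K F],
      SameGroup r F →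
      (∀ (n m : ℕ) (π : G →* Matrix.unitaryGroup (Fin n) ℂ)
        (τ : Gal(AlgebraicClosure K/K) →* Matrix.unitaryGroup (Fin m) ℂ), IsMoving π → IsArtin τ →
        FactorsThrough τ F → ∀ t : ℝ, ∃ Λ, IsContinuation π x τ σ t Λ) →
      ∀ y : HeightOneSpectrum (𝓞 F) → G, BaseChange x y → Equidistributed y μ) := by
  have H := law_of hx
  refine ⟨fun n m π τ hπ hτ t => ?_, fun Q _ q r hq F _ _ _ hF hcont y hy => ?_⟩
  · obtain ⟨h1, h2, h3⟩ :=
      Pool.Agent.R370.ST.tw_lt H hσ hπ.continuous hπ.schur hπ.moves hτ.isOpen_ker hτ.schur t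
    exact ⟨h1, h2, fun Λ hΛ => h3 Λ hΛ.1 hΛ.2⟩
  · intro f hf hcl
    rw [avg_eq]
    have hopen : ∀ (m : ℕ) (τ : Gal(AlgebraicClosure K/K) →* Matrix.unitaryGroup (Fin m) ℂ),
        (∀ g, Pool.Agent.W353.NF.act K F g = 1 → τ g = 1) →
        IsOpen (τ.ker : Set Gal(AlgebraicClosure K/K)) := by
      intro m τ h
      exact Subgroup.isOpen_mono (H₁ := (Pool.Agent.W353.NF.act K F).ker)
        (fun g hg => h g hg) (Pool.Agent.W353.NF.ker_act_open K F)
    refine Pool.Agent.R370.ST.inherit H hσ q hq.surjective (fun g hg => (hq.ker_eq g).1 hg) r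
      hq.isOpen_ker hq.frobenius F ?_ ?_ hy hf hcl
    · intro e c
      obtain ⟨g, h1, h2⟩ := hF e c
      refine ⟨g, ?_, h2⟩
      rw [Pool.Agent.W353.NF.act_apply]
      exact AlgHom.ext fun a => h1 a
    · intro n π h1 h2 h3 m τ h4 h5 t
      refine hcont n m π τ ⟨h1, h2, h3⟩ ⟨hopen m τ h4, h5⟩ ?_ t
      intro g hg
      refine h4 g (Equiv.ext fun e => ?_)
      rw [Pool.Agent.W353.NF.act_apply]
      exact AlgHom.ext fun a => hg e a

end Pool.Agent.Results.MP_4c4ce6_nt.InheritanceByExtensions
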