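import Pool.Agent.R370.ST.Multi4

/-!
# Joint Sato-Tate laws of several families: pairs suffice

`K` is a number field and `V_i`, `i ∈ ι`, are finitely many families as in the problem, with the
Sato-Tate groups `G_i` (arbitrary compact groups) and the classes `x_i(v) ∈ G_i`.  If the families are
independent, the Sato-Tate group of the direct sum of the `V_i` is the product of the `G_i`, and the
Sato-Tate law for this direct sum says that the classes `(x_i(v))_i` are equidistributed in the product
of the `G_i`.  For instance, for elliptic curves over a totally real field without complex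
multiplication, pairwise not isogenous over an algebraic closure, this is known for two curves and
open for three curves.  (At the finitely many exceptional primes, `x_i(v)` is any element of `G_i`.)

The criterion of Serre for the law of the `(x_i(v))_i` needs, for all irreducible representations `π_i` of
`G_i`, the continuation of `L(⊗ π_i, s)` to `Re s ≥ 1` without zeros and poles.

I. (Nothing is assumed about continuations.)  If there are at least three families and if each proper
subfamily satisfies the joint law, for instance for three families if the joint law is known for the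
three pairs, and if the `π_i` are nontrivial and not all of dimension one, then
`|log |L(⊗ π_i, 1 + it + ε)|| ≤ (1 - δ) log (1 / ε)` for some `δ > 0` and all small `ε > 0`, and every
meromorphic continuation to a neighbourhood of `1 + it` has neither a zero nor a pole at `1 + it`.

II. If the joint law is known for all pairs, it holds for all families together, provided that the
`L(⊗ π_i, s)` with at least three nontrivial factors, not all of dimension one, have meromorphic
continuations to neighbourhoods of the points of `Re s = 1`.  The one-dimensional characters are a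
necessary exception (three characters with product one are pairwise independent, for instance); for
them the joint law is assumed, and this is an empty assumption if the `G_i` have no nontrivial
one-dimensional characters.
-/

set_option autoImplicit false

namespace Pool.Agent.Results.MP_4c4ce6_nt.PairsSuffice

open NumberField IsDedekindDomain Filter Topology MeasureTheory

section

variable {K : Type} [Field K] [NumberField K]

/-- The average of `φ` over the primes of `K` of norm at most `N`. -/
noncomputable def avg (φ : HeightOneSpectrum (𝓞 K) → ℂ) (N : ℕ) : ℂ :=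
  (∑ᶠ v : {v : HeightOneSpectrum (𝓞 K) // Ideal.absNorm v.asIdeal ≤ N}, φ v.1) /
    (Nat.card {v : HeightOneSpectrum (𝓞 K) // Ideal.absNorm v.asIdeal ≤ N} : ℂ)

/-- The classes of the `y v` are equidistributed for `μ`. -/
def Equidistributed {G : Type} [Group G] [TopologicalSpace G] [MeasurableSpace G]
    (y : HeightOneSpectrum (𝓞 K) → G) (μ : Measure G) : Prop :=
  ∀ f : G → ℂ, Continuous f → (∀ g h, f (h * g * h⁻¹) = f g) →
    Tendsto (avg fun v => f (y v)) atTop (𝓝 (∫ g, f g ∂μ))

variable {ι : Type} {G : ι → Type} [∀ i, Group (G i)]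

/-- The families with index in `s` satisfy the joint law: the classes of `(x_i(v))_{i ∈ s}` are
equidistributed in the product of the `G_i`, `i ∈ s`. -/
def JointLaw [∀ i, TopologicalSpace (G i)] [∀ i, MeasurableSpace (G i)]
    (x : ∀ i, HeightOneSpectrum (𝓞 K) → G i) (μ : ∀ i, Measure (G i)) (s : Finset ι) : Prop :=
  Equidistributed (fun v (i : s) => x i v) (Measure.pi fun i : s => μ i)

variable {n : ι → ℕ}

/-- The continuous unitary representation `π` is irreducible: only the scalars commute with all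
matrices `π g`. -/
structure IsIrreducible {H : Type} [Group H] [TopologicalSpace H] {m : ℕ}
    (π : H →* Matrix.unitaryGroup (Fin m) ℂ) : Prop where
  continuous : Continuous π
  schur : ∀ A : Matrix (Fin m) (Fin m) ℂ, (∀ g, (π g : Matrix (Fin m) (Fin m) ℂ) * A = A * π g) →
    ∃ c : ℂ, A = c • (1 : Matrix (Fin m) (Fin m) ℂ)

/-- The tensor product of matrices `A i`. -/
def tensor [Fintype ι] (A : ∀ i, Matrix (Fin (n i)) (Fin (n i)) ℂ) :
    Matrix (∀ i, Fin (n i)) (∀ i, Fin (n i)) ℂ := Matrix.of fun a b => ∏ i, A i (a i) (b i)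

variable [Fintype ι] [DecidableEq ι]

/-- The Euler product `L(⊗ π_i, s) = ∏_v det(1 - q_v^{-s} ⊗_i π_i(x_i(v)))⁻¹` over the primes `v` of `K`. -/
noncomputable def LFun (π : ∀ i, G i →* Matrix.unitaryGroup (Fin (n i)) ℂ)
    (x : ∀ i, HeightOneSpectrum (𝓞 K) → G i) (s : ℂ) : ℂ :=
  ∏' v : HeightOneSpectrum (𝓞 K), (Matrix.det (1 - ((Ideal.absNorm v.asIdeal : ℂ) ^ (-s)) •
    tensor fun i => (π i (x i v) : Matrix (Fin (n i)) (Fin (n i)) ℂ)))⁻¹

/-- `log |L(⊗ π_i, 1 + it + ε)| / log (1/ε)`. -/
noncomputable def size (π : ∀ i, G i →* Matrix.unitaryGroup (Fin (n i)) ℂ)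
    (x : ∀ i, HeightOneSpectrum (𝓞 K) → G i) (t ε : ℝ) : ℝ :=
  Real.log ‖LFun π x (1 + t * Complex.I + ε)‖ / Real.log (1 / ε)

/-- `Λ` is a meromorphic continuation of `L(⊗ π_i, s)` to a neighbourhood of `1 + it`. -/
def IsContinuation (π : ∀ i, G i →* Matrix.unitaryGroup (Fin (n i)) ℂ)
    (x : ∀ i, HeightOneSpectrum (𝓞 K) → G i) (t : ℝ) (Λ : ℂ → ℂ) : Prop :=
  MeromorphicAt Λ (1 + t * Complex.I) ∧
    ∀ᶠ s in 𝓝 ((1 : ℂ) + t * Complex.I), (1 : ℝ) < s.re → Λ s = LFun π x s

end

section Bridge

set_option linter.unusedSectionVars false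

open Pool.Agent.TH553.ST Pool.Agent.TH553.RS Pool.Agent.W540.BE Pool.Agent.R370.ST

variable {K : Type} [Field K] [NumberField K]

theorem avg_eq (g : HeightOneSpectrum (𝓞 K) → ℂ) : avg g = mn g := by
  funext N
  have hs : ∀ v, v ∈ upto K N ↔ Ideal.absNorm v.asIdeal ≤ N := fun v => mem_upto
  let e : {v : HeightOneSpectrum (𝓞 K) // Ideal.absNorm v.asIdeal ≤ N} ≃ (upto K N) :=
    Equiv.subtypeEquivRight fun v => (hs v).symm
  have hfin : Finite {v : HeightOneSpectrum (𝓞 K) // Ideal.absNorm v.asIdeal ≤ N} :=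
    Finite.of_equiv _ e.symm
  unfold avg mn
  have h1 : (∑ᶠ v : {v : HeightOneSpectrum (𝓞 K) // Ideal.absNorm v.asIdeal ≤ N}, g v.1) =
      ∑ v ∈ upto K N, g v := by
    rw [← Finset.sum_coe_sort, ← finsum_eq_sum_of_fintype, ← finsum_comp_equiv e]
    rfl
  have h2 : Nat.card {v : HeightOneSpectrum (𝓞 K) // Ideal.absNorm v.asIdeal ≤ N} =
      (upto K N).card := by
    rw [Nat.card_congr e, Nat.card_eq_fintype_card, Fintype.card_coe]
  rw [h1, h2, Complex.real_smul, div_eq_inv_mul]
  push_cast
  rfl

variable {ι : Type} [Fintype ι] [DecidableEq ι] {G : ι → Type} [∀ i, Group (G i)]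
  [∀ i, TopologicalSpace (G i)] [∀ i, IsTopologicalGroup (G i)] [∀ i, CompactSpace (G i)]
  [∀ i, MeasurableSpace (G i)] [∀ i, BorelSpace (G i)]
  {μ : ∀ i, Measure (G i)} [∀ i, IsProbabilityMeasure (μ i)] [∀ i, (μ i).IsHaarMeasure]
  {x : ∀ i, HeightOneSpectrum (𝓞 K) → G i}

theorem QQ_of_law {s : Finset ι} (h : JointLaw x μ s) : QQ μ x s :=
  QQ_of_joint fun f hf hcl => by
    have h1 := h f hf hcl
    rw [avg_eq] at h1
    exact h1

end Bridge

/-- **Pairs suffice.**  Let `K` be a number field, `G_i`, `i ∈ ι`, finitely many compact groups with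
Haar probability measures `μ_i`, and `x_i(v) ∈ G_i` for the primes `v` of `K`.

I.  Suppose that there are at least three indices and that for each proper subset of `ι` the joint law
holds.  Let `π_i` be irreducible nontrivial representations of the `G_i`, not all of dimension one, and
`t` real.  Then `|log |L(⊗ π_i, 1 + it + ε)|| ≤ (1 - δ) log (1/ε)` for some `δ > 0` and all small
`ε > 0`, and each meromorphic continuation of `L(⊗ π_i, s)` to a neighbourhood of `1 + it` has the order
zero at this point.

II.  Suppose that the joint law holds for all subsets of `ι` with at most two elements, that the averages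
of `∏ ψ_i(x_i(v))` tend to zero for all one-dimensional characters `ψ_i` of `G_i` which are not all
trivial, and that for all irreducible representations `π_i` of `G_i` which are not all of dimension one,
at least three of them nontrivial, and for all real `t` there is a meromorphic continuation of
`L(⊗ π_i, s)` to a neighbourhood of `1 + it`.  Then the joint law holds for all families together. -/
theorem result (K : Type) [Field K] [NumberField K] (ι : Type) [Fintype ι] [DecidableEq ι]
    (G : ι → Type) [∀ i, Group (G i)] [∀ i, TopologicalSpace (G i)]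
    [∀ i, IsTopologicalGroup (G i)] [∀ i, CompactSpace (G i)] [∀ i, T2Space (G i)]
    [∀ i, SecondCountableTopology (G i)] [∀ i, MeasurableSpace (G i)] [∀ i, BorelSpace (G i)]
    (μ : ∀ i, Measure (G i)) [∀ i, IsProbabilityMeasure (μ i)] [∀ i, (μ i).IsHaarMeasure]
    (x : ∀ i, HeightOneSpectrum (𝓞 K) → G i) :
    (3 ≤ Fintype.card ι → (∀ s : Finset ι, s ≠ Finset.univ → JointLaw x μ s) →
      ∀ (n : ι → ℕ) (π : ∀ i, G i →* Matrix.unitaryGroup (Fin (n i)) ℂ),
      (∀ i, IsIrreducible (π i)) → (∀ i, π i ≠ 1) → (∃ i, n i ≠ 1) → ∀ t : ℝ,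
      (∀ᶠ ε : ℝ in 𝓝[>] 0, LFun π x (1 + t * Complex.I + ε) ≠ 0) ∧
      (∃ δ : ℝ, 0 < δ ∧ ∀ᶠ ε : ℝ in 𝓝[>] 0, |size π x t ε| ≤ 1 - δ) ∧
      ∀ Λ, IsContinuation π x t Λ → meromorphicOrderAt Λ (1 + t * Complex.I) = 0) ∧
    ((∀ s : Finset ι, s.card ≤ 2 → JointLaw x μ s) →
      (∀ ψ : ∀ i, G i →* Matrix.unitaryGroup (Fin 1) ℂ, (∀ i, Continuous (ψ i)) →
        (∃ i, ψ i ≠ 1) → Tendsto (avg fun v =>
          ∏ i, (ψ i (x i v) : Matrix (Fin 1) (Fin 1) ℂ).trace) atTop (𝓝 0)) →
      (∀ (n : ι → ℕ) (π : ∀ i, G i →* Matrix.unitaryGroup (Fin (n i)) ℂ),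
        (∀ i, IsIrreducible (π i)) → (∃ i, n i ≠ 1) →
        (∃ i j k, i ≠ j ∧ i ≠ k ∧ j ≠ k ∧ π i ≠ 1 ∧ π j ≠ 1 ∧ π k ≠ 1) →
        ∀ t : ℝ, ∃ Λ, IsContinuation π x t Λ) →
      Equidistributed (fun v i => x i v) (Measure.pi μ)) := by
  classical
  have hne : ∀ {H : Type} [Group H] {m : ℕ} {π : H →* Matrix.unitaryGroup (Fin m) ℂ},
      (∃ g, π g ≠ 1) → π ≠ 1 := by
    intro H _ m π h h0
    obtain ⟨g, hg⟩ := h
    exact hg (by rw [h0]; rfl)
  have hne' : ∀ {H : Type} [Group H] {m : ℕ} {π : H →* Matrix.unitaryGroup (Fin m) ℂ},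
      π ≠ 1 → ∃ g, π g ≠ 1 := by
    intro H _ m π h
    by_contra hcon
    push Not at hcon
    exact h (MonoidHom.ext hcon)
  refine ⟨fun hcard hlaw n π hπ hnt hd t => ?_, fun hpair hab hcont => ?_⟩
  · obtain ⟨i₀, hi₀⟩ := hd
    have hn : ∀ i, n i ≠ 0 := by
      intro i h
      obtain ⟨g, hg⟩ := hne' (hnt i)
      apply hg
      apply Subtype.ext
      ext a
      exact absurd a.2 (by omega)
    obtain ⟨h1, h2⟩ := Pool.Agent.R370.ST.full_lt (by omega) (fun s hs => QQ_of_law (hlaw s hs))
      (fun i => (hπ i).continuous) (fun i => (hπ i).schur) hn hi₀ t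
    exact ⟨(Pool.Agent.R370.ST.size_LT π x t).1, h1, fun Λ hΛ => h2 Λ hΛ.1 hΛ.2⟩
  · intro f hf hcl
    rw [avg_eq]
    refine Pool.Agent.R370.ST.joint_of_QQ (Pool.Agent.R370.ST.all_QQ ?_ _) hf hcl
    refine ⟨fun s hs => QQ_of_law (hpair s hs), fun ψ h1 h2 => ?_, fun n π h1 h2 h3 h4 t => ?_⟩
    · obtain ⟨i, hi⟩ := h2
      have h3 := hab ψ h1 ⟨i, hne hi⟩
      rw [avg_eq] at h3
      exact h3
    · obtain ⟨i, hi⟩ := h3
      obtain ⟨a, b, c, hab', hac, hbc, ha, hb, hc⟩ := h4
      exact hcont n π (fun i => ⟨h1 i, h2 i⟩) ⟨i, by omega⟩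
        ⟨a, b, c, hab', hac, hbc, hne ha, hne hb, hne hc⟩ t

end Pool.Agent.Results.MP_4c4ce6_nt.PairsSuffice
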