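import Pool.Agent.R370.ST.Two5

/-!
# Two families: the failure of independence is caused by linked representations

`K` is a number field and `V`, `V'` are two families as in the problem, with the Sato-Tate groups `G`,
`G'` (arbitrary compact groups) and the classes `x_v`, `x'_v`.  Suppose that the Sato-Tate law holds for
`V` and for `V'`.  The theorem is about the joint law of the `(x_v, x'_v)`, which decides about the
Sato-Tate law for `V ⊕ V'`.  (At the finitely many exceptional primes `x_v` and `x'_v` are any elements.)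

Irreducible representations `π` of `G` and `π'` of `G'` are called linked at the height `t` with the sign
`r = 1` or `r = -1` if `χ_π(x_v)` and `r q_v^{it} conj χ_π'(x'_v)` have arbitrarily small distance for a
set of primes `v` of natural density one.

I. (Nothing is assumed about continuations.)  Always `|log |L(π × π', 1 + it + ε)|| ≤ (1 + η) log (1/ε)`
for all `η > 0` and small `ε > 0`, with a constant `1 - δ < 1` in the place of `1 + η` if the absolute
values of the two characters have different distributions for the Haar measures.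

II. Suppose that the `L(π × π', s)` have meromorphic continuations to neighbourhoods of the points of the
line `Re s = 1`; nothing is assumed about zeros and poles.  Then for each nontrivial `π` either all
`L(π × π', s)` have neither zeros nor poles on the line and `χ_π(x_v)` does not correlate with any
class function of `x'_v`; or `π` is linked to one `π'`, at one height `t` with one sign `r`, the
dimensions agree, `L(π × π', s)` has the order `-r` at `1 + it`, and at all other points and for all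
other `π'` there is neither a zero nor a pole.  The links are closed under tensor products: if
`π_1`, `π_1'` and `π_2`, `π_2'` are linked at `t_1`, `t_2` with `r_1`, `r_2` then each constituent of
`π_1 ⊗ π_2` is linked to a constituent of `π_1' ⊗ π_2'` at `t_1 + t_2` with `r_1 r_2`, and the
multiplicities agree.  (So the linked representations are those of quotients of `G` and of `G'`, with
isomorphic character rings.)  If there are no links between nontrivial representations, the joint law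
holds: the `(x_v, x'_v)` are equidistributed in `G × G'`.
-/

set_option autoImplicit false

namespace Pool.Agent.Results.MP_4c4ce6_nt.TwoFamilies

open NumberField IsDedekindDomain Filter Topology MeasureTheory ComplexConjugate
open scoped Kronecker

section

variable {K : Type} [Field K] [NumberField K]

/-- The average of `φ` over the primes of `K` of norm at most `N`. -/
noncomputable def avg (φ : HeightOneSpectrum (𝓞 K) → ℂ) (N : ℕ) : ℂ :=
  (∑ᶠ v : {v : HeightOneSpectrum (𝓞 K) // Ideal.absNorm v.asIdeal ≤ N}, φ v.1) /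
    (Nat.card {v : HeightOneSpectrum (𝓞 K) // Ideal.absNorm v.asIdeal ≤ N} : ℂ)

/-- The classes of the `y v` are equidistributed for `μ`. -/
def Equidistributed {G : Type} [Group G] [TopologicalSpace G] [MeasurableSpace G]
    (y : HeightOneSpectrum (𝓞 K) → G) (μ : Measure G) : Prop :=
  ∀ f : G → ℂ, Continuous f → (∀ g h, f (h * g * h⁻¹) = f g) →
    Tendsto (avg fun v => f (y v)) atTop (𝓝 (∫ g, f g ∂μ))

/-- The set `s` of primes has the natural density zero. -/
def DensityZero (s : Set (HeightOneSpectrum (𝓞 K))) : Prop :=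
  Tendsto (avg (s.indicator fun _ => 1)) atTop (𝓝 0)

variable {G : Type} [Group G] {n : ℕ}

/-- The character of `π`. -/
noncomputable def chr (π : G →* Matrix.unitaryGroup (Fin n) ℂ) (g : G) : ℂ :=
  (π g : Matrix (Fin n) (Fin n) ℂ).trace

/-- The continuous unitary representation `π` is irreducible: its dimension is positive and only the
scalars commute with all matrices `π g`. -/
structure IsIrreducible [TopologicalSpace G] (π : G →* Matrix.unitaryGroup (Fin n) ℂ) : Prop where
  pos : 0 < n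
  continuous : Continuous π
  schur : ∀ A : Matrix (Fin n) (Fin n) ℂ, (∀ g, (π g : Matrix (Fin n) (Fin n) ℂ) * A = A * π g) →
    ∃ c : ℂ, A = c • (1 : Matrix (Fin n) (Fin n) ℂ)

variable {G' : Type} [Group G'] {n' : ℕ}

/-- The Euler product `L(π × π', s) = ∏_v det(1 - q_v^{-s} π(x_v) ⊗ π'(x'_v))⁻¹` over the primes `v` of
`K`. -/
noncomputable def LFun (π : G →* Matrix.unitaryGroup (Fin n) ℂ) (x : HeightOneSpectrum (𝓞 K) → G)
    (π' : G' →* Matrix.unitaryGroup (Fin n') ℂ) (x' : HeightOneSpectrum (𝓞 K) → G') (s : ℂ) : ℂ :=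
  ∏' v : HeightOneSpectrum (𝓞 K), (Matrix.det (1 - ((Ideal.absNorm v.asIdeal : ℂ) ^ (-s)) •
    ((π (x v) : Matrix (Fin n) (Fin n) ℂ) ⊗ₖ (π' (x' v) : Matrix (Fin n') (Fin n') ℂ))))⁻¹

/-- `log |L(π × π', 1 + it + ε)| / log (1/ε)`. -/
noncomputable def size (π : G →* Matrix.unitaryGroup (Fin n) ℂ) (x : HeightOneSpectrum (𝓞 K) → G)
    (π' : G' →* Matrix.unitaryGroup (Fin n') ℂ) (x' : HeightOneSpectrum (𝓞 K) → G') (t ε : ℝ) : ℝ :=
  Real.log ‖LFun π x π' x' (1 + t * Complex.I + ε)‖ / Real.log (1 / ε)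

/-- `Λ` is a meromorphic continuation of `L(π × π', s)` to a neighbourhood of `1 + it`. -/
def IsContinuation (π : G →* Matrix.unitaryGroup (Fin n) ℂ) (x : HeightOneSpectrum (𝓞 K) → G)
    (π' : G' →* Matrix.unitaryGroup (Fin n') ℂ) (x' : HeightOneSpectrum (𝓞 K) → G') (t : ℝ)
    (Λ : ℂ → ℂ) : Prop :=
  MeromorphicAt Λ (1 + t * Complex.I) ∧
    ∀ᶠ s in 𝓝 ((1 : ℂ) + t * Complex.I), (1 : ℝ) < s.re → Λ s = LFun π x π' x' s

/-- `π` and `π'` are linked at the height `t` with the sign `r`: for each `δ > 0` the inequality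
`|χ_π(x_v) - r q_v^{it} conj χ_π'(x'_v)| > δ` holds for a set of primes `v` of natural density zero. -/
def Linked (π : G →* Matrix.unitaryGroup (Fin n) ℂ) (x : HeightOneSpectrum (𝓞 K) → G)
    (π' : G' →* Matrix.unitaryGroup (Fin n') ℂ) (x' : HeightOneSpectrum (𝓞 K) → G') (t : ℝ)
    (r : ℤ) : Prop :=
  ∀ δ : ℝ, 0 < δ → DensityZero {v : HeightOneSpectrum (𝓞 K) | δ < ‖chr π (x v) -
    r * (Ideal.absNorm v.asIdeal : ℂ) ^ (t * Complex.I) * conj (chr π' (x' v))‖}

end

section Bridge

set_option linter.unusedSectionVars false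

open Pool.Agent.TH553.ST Pool.Agent.TH553.RS Pool.Agent.W540.BE Pool.Agent.R370.ST

variable {K : Type} [Field K] [NumberField K]

theorem avg_eq (g : HeightOneSpectrum (𝓞 K) → ℂ) : avg g = mn g := by
  funext N
  have hs : ∀ v, v ∈ upto K N ↔ Ideal.absNorm v.asIdeal ≤ N := fun v => mem_upto
  let e : {v : HeightOneSpectrum (𝓞 K) // Ideal.absNorm v.asIdeal ≤ N} ≃ (upto K N) :=
    Equiv.subtypeEquivRight fun v => (hs v).symm
  have hfin : Finite {v : HeightOneSpectrum (𝓞 K) // Ideal.absNorm v.asIdeal ≤ N} :=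
    Finite.of_equiv _ e.symm
  unfold avg mn
  have h1 : (∑ᶠ v : {v : HeightOneSpectrum (𝓞 K) // Ideal.absNorm v.asIdeal ≤ N}, g v.1) =
      ∑ v ∈ upto K N, g v := by
    rw [← Finset.sum_coe_sort, ← finsum_eq_sum_of_fintype, ← finsum_comp_equiv e]
    rfl
  have h2 : Nat.card {v : HeightOneSpectrum (𝓞 K) // Ideal.absNorm v.asIdeal ≤ N} =
      (upto K N).card := by
    rw [Nat.card_congr e, Nat.card_eq_fintype_card, Fintype.card_coe]
  rw [h1, h2, Complex.real_smul, div_eq_inv_mul]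
  push_cast
  rfl

variable {G : Type} [Group G] [TopologicalSpace G] [IsTopologicalGroup G] [CompactSpace G]
  [MeasurableSpace G] [BorelSpace G] {μ : Measure G} [IsProbabilityMeasure μ] [μ.IsHaarMeasure]
  {x : HeightOneSpectrum (𝓞 K) → G}

theorem law_of (h : Equidistributed x μ) : Law x μ := by
  intro f hf hcl
  have h1 := h (fun g => (f g : ℂ)) (Complex.continuous_ofReal.comp hf) fun g h => by rw [hcl]
  have h0 : ∫ g, (f g : ℂ) ∂μ = ((∫ g, f g ∂μ : ℝ) : ℂ) := integral_ofReal
  rw [avg_eq, h0] at h1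
  have h2 := (Complex.continuous_re.tendsto _).comp h1
  refine h2.congr fun N => ?_
  simp only [Function.comp]
  rw [re_mn]
  rfl

variable {n : ℕ} {π : G →* Matrix.unitaryGroup (Fin n) ℂ} {G' : Type} [Group G']
  [TopologicalSpace G'] [IsTopologicalGroup G'] [CompactSpace G'] [MeasurableSpace G']
  [BorelSpace G'] {n' : ℕ} {π' : G' →* Matrix.unitaryGroup (Fin n') ℂ}
  {x' : HeightOneSpectrum (𝓞 K) → G'}

theorem df_eq (t : ℝ) (r : ℤ) (v : HeightOneSpectrum (𝓞 K)) :
    Pool.Agent.TH553.ST.df (r : ℝ) (tc π x 0) (tc π' x' t) v = chr π (x v) -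
      r * (Ideal.absNorm v.asIdeal : ℂ) ^ (t * Complex.I) * conj (chr π' (x' v)) := by
  unfold Pool.Agent.TH553.ST.df
  rw [tc_zero]
  unfold tc
  have h8 : ((nm K v : ℕ) : ℂ).arg ≠ Real.pi := by
    rw [Complex.natCast_arg]
    exact Real.pi_ne_zero.symm
  have h9 := Complex.cpow_conj (((nm K v : ℕ) : ℂ)) (-(t * Complex.I : ℂ)) h8
  rw [Complex.conj_natCast] at h9
  rw [map_mul, ← h9, map_neg, map_mul, Complex.conj_ofReal, Complex.conj_I, mul_neg, neg_neg]
  change TH553.ST.chi π (x v) - ((r : ℝ) : ℂ) * (conj (TH553.ST.chi π' (x' v)) *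
    ((nm K v : ℕ) : ℂ) ^ (t * Complex.I : ℂ)) = TH553.ST.chi π (x v) -
    r * ((nm K v : ℕ) : ℂ) ^ (t * Complex.I) * conj (TH553.ST.chi π' (x' v))
  push_cast
  ring

theorem linked_iff (t : ℝ) (r : ℤ) : Linked π x π' x' t r ↔ ∀ δ : ℝ, 0 < δ →
    Tendsto (mn ({v | δ < ‖Pool.Agent.TH553.ST.df (r : ℝ) (tc π x 0) (tc π' x' t) v‖}.indicator
      fun _ => (1 : ℂ))) atTop (𝓝 0) := by
  unfold Linked DensityZero
  simp only [avg_eq, df_eq]

theorem linked_of_sq {t : ℝ} {r : ℤ} (h : Tendsto (mn fun v =>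
    ‖Pool.Agent.TH553.ST.df (r : ℝ) (tc π x 0) (tc π' x' t) v‖ ^ 2) atTop (𝓝 0)) :
    Linked π x π' x' t r :=
  (linked_iff t r).2 fun _ hδ => dens_nat h hδ

theorem sq_of_linked {t : ℝ} {r : ℤ} (h : Linked π x π' x' t r) (U : Ultrafilter ℝ)
    (hU : (U : Filter ℝ) ≤ 𝓝[>] 0) : (Pool.Agent.TH553.RS.M (nm K) U fun v =>
      ‖Pool.Agent.TH553.ST.df (r : ℝ) (tc π x 0) (tc π' x' t) v‖ ^ 2) = 0 :=
  M_of_dens (Bc.df (bc_tc x 0) (bc_tc x' t) _) ((linked_iff t r).1 h) hU

end Bridge

/-- **Two families.**  Let `K` be a number field, `G` and `G'` compact groups with Haar probability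
measures `μ` and `μ'`, and `x_v ∈ G`, `x'_v ∈ G'` for the primes `v` of `K`, such that the classes of the
`x_v` and the classes of the `x'_v` are equidistributed.

I. For irreducible `π`, `π'` and real `t`: `|log |L(π × π', 1 + it + ε)|| ≤ (1 + η) log (1/ε)` for each
`η > 0` and all small `ε > 0`; and `≤ (1 - δ) log (1/ε)` with some `δ > 0` if some moments of the absolute
values of the characters are different.

II. Suppose that for all nontrivial irreducible `π`, `π'` and all real `t` there is a meromorphic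
continuation of `L(π × π', s)` to a neighbourhood of `1 + it`.  (a) For each nontrivial irreducible `π`
either all these continuations have the order zero at `1 + it`, and the averages of `χ_π(x_v) f(x'_v)` tend
to zero for all continuous class functions `f` on `G'`; or there is a nontrivial irreducible `π'` of the
same dimension, a height `t` and a sign `r` such that `π` and `π'` are linked, the order of `L(π × π', s)` at
`1 + it` is `-r`, and all other orders are zero.  (b) Each constituent `σ` of the tensor product of two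
linked representations is linked to a `σ'` at the sum of the heights with the product of the signs, and
the multiplicities agree.  (c) If there are no links between nontrivial irreducible representations, the
classes of the `(x_v, x'_v)` are equidistributed in `G × G'`. -/
theorem result (K : Type) [Field K] [NumberField K]
    (G : Type) [Group G] [TopologicalSpace G] [IsTopologicalGroup G] [CompactSpace G] [T2Space G]
    [SecondCountableTopology G] [MeasurableSpace G] [BorelSpace G] (μ : Measure G)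
    [IsProbabilityMeasure μ] [μ.IsHaarMeasure]
    (G' : Type) [Group G'] [TopologicalSpace G'] [IsTopologicalGroup G'] [CompactSpace G']
    [T2Space G'] [SecondCountableTopology G'] [MeasurableSpace G'] [BorelSpace G']
    (μ' : Measure G') [IsProbabilityMeasure μ'] [μ'.IsHaarMeasure]
    (x : HeightOneSpectrum (𝓞 K) → G) (x' : HeightOneSpectrum (𝓞 K) → G')
    (hx : Equidistributed x μ) (hx' : Equidistributed x' μ') :
    (∀ (n n' : ℕ) (π : G →* Matrix.unitaryGroup (Fin n) ℂ)
      (π' : G' →* Matrix.unitaryGroup (Fin n') ℂ), IsIrreducible π → IsIrreducible π' → ∀ t : ℝ,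
      (∀ᶠ ε : ℝ in 𝓝[>] 0, LFun π x π' x' (1 + t * Complex.I + ε) ≠ 0) ∧
      (∀ η : ℝ, 0 < η → ∀ᶠ ε : ℝ in 𝓝[>] 0, |size π x π' x' t ε| ≤ 1 + η) ∧
      ((∃ k : ℕ, ∫ g, ‖chr π g‖ ^ (2 * k) ∂μ ≠ ∫ g, ‖chr π' g‖ ^ (2 * k) ∂μ') →
        ∃ δ : ℝ, 0 < δ ∧ ∀ᶠ ε : ℝ in 𝓝[>] 0, |size π x π' x' t ε| ≤ 1 - δ)) ∧
    ((∀ (n n' : ℕ) (π : G →* Matrix.unitaryGroup (Fin n) ℂ)
      (π' : G' →* Matrix.unitaryGroup (Fin n') ℂ), IsIrreducible π → IsIrreducible π' → π ≠ 1 →
      π' ≠ 1 → ∀ t : ℝ, ∃ Λ, IsContinuation π x π' x' t Λ) →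
      (∀ (n : ℕ) (π : G →* Matrix.unitaryGroup (Fin n) ℂ), IsIrreducible π → π ≠ 1 →
        ((∀ (n' : ℕ) (π' : G' →* Matrix.unitaryGroup (Fin n') ℂ), IsIrreducible π' → π' ≠ 1 →
          ∀ (t : ℝ) (Λ : ℂ → ℂ), IsContinuation π x π' x' t Λ →
            meromorphicOrderAt Λ (1 + t * Complex.I) = 0) ∧
          ∀ f : G' → ℂ, Continuous f → (∀ g h, f (h * g * h⁻¹) = f g) →
            Tendsto (avg fun v => chr π (x v) * f (x' v)) atTop (𝓝 0)) ∨
        ∃ (π' : G' →* Matrix.unitaryGroup (Fin n) ℂ) (t : ℝ) (r : ℤ), IsIrreducible π' ∧ π' ≠ 1 ∧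
          (r = 1 ∨ r = -1) ∧ Linked π x π' x' t r ∧
          (∀ Λ : ℂ → ℂ, IsContinuation π x π' x' t Λ →
            meromorphicOrderAt Λ (1 + t * Complex.I) = ((-r : ℤ) : WithTop ℤ)) ∧
          ∀ (n'' : ℕ) (π'' : G' →* Matrix.unitaryGroup (Fin n'') ℂ) (t' : ℝ), IsIrreducible π'' →
            π'' ≠ 1 → (t' ≠ t ∨ chr π'' ≠ chr π') → ∀ Λ : ℂ → ℂ, IsContinuation π x π'' x' t' Λ →
            meromorphicOrderAt Λ (1 + t' * Complex.I) = 0) ∧
      (∀ (n₁ n₂ n n₁' n₂' : ℕ) (π₁ : G →* Matrix.unitaryGroup (Fin n₁) ℂ)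
        (π₂ : G →* Matrix.unitaryGroup (Fin n₂) ℂ) (σ : G →* Matrix.unitaryGroup (Fin n) ℂ)
        (π₁' : G' →* Matrix.unitaryGroup (Fin n₁') ℂ) (π₂' : G' →* Matrix.unitaryGroup (Fin n₂') ℂ),
        IsIrreducible π₁ → IsIrreducible π₂ → IsIrreducible σ → IsIrreducible π₁' →
        IsIrreducible π₂' → ∀ (t₁ t₂ : ℝ) (r₁ r₂ : ℤ), (r₁ = 1 ∨ r₁ = -1) → (r₂ = 1 ∨ r₂ = -1) →
        Linked π₁ x π₁' x' t₁ r₁ → Linked π₂ x π₂' x' t₂ r₂ →
        ∫ g, chr π₁ g * chr π₂ g * conj (chr σ g) ∂μ ≠ 0 →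
        ∃ (n' : ℕ) (σ' : G' →* Matrix.unitaryGroup (Fin n') ℂ), IsIrreducible σ' ∧
          Linked σ x σ' x' (t₁ + t₂) (r₁ * r₂) ∧
          ∫ g, chr π₁ g * chr π₂ g * conj (chr σ g) ∂μ =
            ∫ g, chr π₁' g * chr π₂' g * conj (chr σ' g) ∂μ') ∧
      ((∀ (n n' : ℕ) (π : G →* Matrix.unitaryGroup (Fin n) ℂ)
        (π' : G' →* Matrix.unitaryGroup (Fin n') ℂ), IsIrreducible π → IsIrreducible π' → π ≠ 1 →
        π' ≠ 1 → ∀ (t : ℝ) (r : ℤ), (r = 1 ∨ r = -1) → ¬ Linked π x π' x' t r) →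
        Equidistributed (fun v => (x v, x' v)) (μ.prod μ'))) := by
  have H := law_of hx
  have H' := law_of hx'
  have hne : ∀ {H : Type} [Group H] {m : ℕ} {π : H →* Matrix.unitaryGroup (Fin m) ℂ},
      (∃ g, π g ≠ 1) → π ≠ 1 := by
    intro H _ m π h h0
    obtain ⟨g, hg⟩ := h
    exact hg (by rw [h0]; rfl)
  have hne' : ∀ {H : Type} [Group H] {m : ℕ} {π : H →* Matrix.unitaryGroup (Fin m) ℂ},
      π ≠ 1 → ∃ g, π g ≠ 1 := by
    intro H _ m π h
    by_contra hcon
    push Not at hcon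
    exact h (MonoidHom.ext hcon)
  have hsgn : ∀ {r : ℤ}, (r = 1 ∨ r = -1) → |(r : ℝ)| = 1 := by
    rintro r (rfl | rfl) <;> simp
  refine ⟨fun n n' π π' hπ hπ' t => ?_, fun hcont => ?_⟩
  · refine ⟨(TH553.ST.size_LP π x π' x' t).1, fun η hη =>
      TH553.ST.pair_le H H' hπ.continuous hπ.schur hπ'.continuous hπ'.schur t hη, ?_⟩
    rintro ⟨k, hk⟩
    refine TH553.ST.pair_lt H H' hπ.continuous hπ.schur hπ'.continuous hπ'.schur (fun hS => ?_) t
    apply hk
    have := hS k
    simp only [← pow_mul] at this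
    exact this
  have hC : ∀ {n n' : ℕ} {π : G →* Matrix.unitaryGroup (Fin n) ℂ}
      {π' : G' →* Matrix.unitaryGroup (Fin n') ℂ}, Continuous π → TH553.ST.Schur π →
      (∃ g, π g ≠ 1) → Continuous π' → TH553.ST.Schur π' → (∃ g, π' g ≠ 1) →
      R370.ST.Cont π x π' x' := by
    intro n n' π π' h1 h2 h3 h4 h5 h6 τ
    exact hcont n n' π π' ⟨Nat.pos_of_ne_zero (TH553.ST.ne_zero_of_nt h3), h1, h2⟩
      ⟨Nat.pos_of_ne_zero (TH553.ST.ne_zero_of_nt h6), h4, h5⟩ (hne h3) (hne h6) τ
  refine ⟨fun n π hπ hπ1 => ?_, ?_, fun hno => ?_⟩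
  · -- the dichotomy
    by_cases hz : ∀ (n' : ℕ) (π' : G' →* Matrix.unitaryGroup (Fin n') ℂ), IsIrreducible π' →
        π' ≠ 1 → ∀ (t : ℝ) (Λ : ℂ → ℂ), IsContinuation π x π' x' t Λ →
          meromorphicOrderAt Λ (1 + t * Complex.I) = 0
    · refine Or.inl ⟨hz, fun f hf hcl => ?_⟩
      rw [avg_eq]
      refine R370.ST.indep_cls H hπ.continuous hπ.schur (hne' hπ1) ?_ hf hcl
      intro n' π' h1 h2 h3
      refine R370.ST.avg_of_order fun τ => ?_
      obtain ⟨Λ, h4, h5⟩ := hC hπ.continuous hπ.schur (hne' hπ1) h1 h2 h3 τ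
      exact ⟨Λ, h4, h5, hz n' π' ⟨Nat.pos_of_ne_zero (TH553.ST.ne_zero_of_nt h3), h1, h2⟩
        (hne h3) τ Λ ⟨h4, h5⟩⟩
    · right
      push Not at hz
      obtain ⟨n', π', hπ', hπ'1, t, Λ, hΛ, hord⟩ := hz
      obtain ⟨m, h3, h4⟩ := TH553.ST.order_LP hΛ.1 hΛ.2
      have hm0 : m ≠ 0 := by
        rintro rfl
        exact hord h3
      obtain ⟨h5, h6, -⟩ := R370.ST.link_of_order H H' hπ.continuous hπ.schur hπ'.continuous
        hπ'.schur h4 hm0
      have hdim : n = n' := TH553.ST.dim_eq hπ.continuous hπ'.continuous h6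
      subst hdim
      have h7 := R370.ST.nat_link H H' hπ.continuous hπ.schur hπ'.continuous hπ'.schur hπ.pos.ne'
        hπ'.pos.ne' (hC hπ.continuous hπ.schur (hne' hπ1) hπ'.continuous hπ'.schur (hne' hπ'1))
        h4 hm0
      have hm1 : |m| = 1 := by
        rw [abs_neg] at h5
        exact_mod_cast h5
      refine ⟨π', t, -m, hπ', hπ'1, ?_, ?_, fun Λ' hΛ' => ?_, ?_⟩
      · rcases (abs_eq (zero_le_one' ℤ)).1 hm1 with h | h
        · right
          rw [h]
        · left
          rw [h]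
          norm_num
      · refine linked_of_sq ?_
        push_cast
        exact h7
      · obtain ⟨m', h8, h9⟩ := TH553.ST.order_LP hΛ'.1 hΛ'.2
        have h10 := tendsto_nhds_unique h4 h9
        have h11 : (m : ℝ) = m' := by linarith
        have h12 : m = m' := by exact_mod_cast h11
        rw [h8, neg_neg, h12]
      · intro n'' π'' t' hπ'' _ hd Λ' hΛ'
        obtain ⟨m', h8, h9⟩ := TH553.ST.order_LP hΛ'.1 hΛ'.2
        have h10 := R370.ST.other_zero H H' hπ.continuous hπ.schur hπ'.continuous hπ'.schur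
          hπ''.continuous hπ''.schur hπ'.pos.ne' h4 hm0 h9 hd
        rw [h8, h10]
        rfl
  · -- the closure
    intro n₁ n₂ n n₁' n₂' π₁ π₂ σ π₁' π₂' h1 h2 h3 h4 h5 t₁ t₂ r₁ r₂ hr₁ hr₂ hl1 hl2 hint
    obtain ⟨k', σ', h6, h7, h8, h9⟩ := R370.ST.link_mul H H' h1.continuous h2.continuous
      h3.continuous h3.schur h3.pos.ne' h4.continuous h5.continuous
      (fun hσ k' σ' h6 h7 h8 => hC h3.continuous h3.schur hσ h6 h7 h8)
      (hsgn hr₁) (hsgn hr₂) (sq_of_linked hl1) (sq_of_linked hl2) hint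
    refine ⟨k', σ', ⟨Nat.pos_of_ne_zero h8, h6, h7⟩, linked_of_sq ?_, ?_⟩
    · push_cast
      exact h9
    · exact R370.ST.mult_eq H H' h1.continuous h2.continuous h3.continuous h4.continuous
        h5.continuous h6 (hsgn hr₁) (hsgn hr₂) (sq_of_linked hl1) (sq_of_linked hl2)
        (fun U hU => R370.ST.M_of_nat
          (TH553.ST.Bc.df (TH553.ST.bc_tc x 0) (TH553.ST.bc_tc x' _) _) h9 hU)
  · -- the joint law
    intro f hf hcl
    rw [avg_eq]
    refine R370.ST.joint_of_avg H H' ?_ hf (fun g g' k k' => hcl (g, g') (k, k'))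
    intro n n' π π' h1 h2 h3 h4 h5 h6
    have hcc := hC h1 h2 h3 h4 h5 h6
    refine R370.ST.avg_of_order fun τ => ?_
    obtain ⟨Λ, h7, h8⟩ := hcc τ
    refine ⟨Λ, h7, h8, ?_⟩
    obtain ⟨m, h9, h10⟩ := TH553.ST.order_LP h7 h8
    rw [h9]
    by_contra hm
    have hm0 : m ≠ 0 := by
      rintro rfl
      exact hm rfl
    have h11 := R370.ST.nat_link H H' h1 h2 h4 h5 (TH553.ST.ne_zero_of_nt h3)
      (TH553.ST.ne_zero_of_nt h6) hcc h10 hm0
    have h12 := (R370.ST.link_of_order H H' h1 h2 h4 h5 h10 hm0).1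
    have hm1 : |m| = 1 := by
      rw [abs_neg] at h12
      exact_mod_cast h12
    refine hno n n' π π' ⟨Nat.pos_of_ne_zero (TH553.ST.ne_zero_of_nt h3), h1, h2⟩
      ⟨Nat.pos_of_ne_zero (TH553.ST.ne_zero_of_nt h6), h4, h5⟩ (hne h3) (hne h6) τ (-m) ?_ ?_
    · rcases (abs_eq (zero_le_one' ℤ)).1 hm1 with h | h
      · right
        rw [h]
      · left
        rw [h]
        norm_num
    · refine linked_of_sq ?_
      push_cast
      exact h11

end Pool.Agent.Results.MP_4c4ce6_nt.TwoFamilies
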